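import Pool.Agent.K4H53.P2
import Pool.Agent.K4H53.Lap

/-!
# Families of holomorphic maps from the polydisc to a compact Kähler surface

On the complex projective plane `X`, for all `n ≥ 1` and `0 < r < 1`, there is a family of
holomorphic maps `Δ^{n+1} → X` which is equicontinuous on the Hartogs figure `H_n^1(r)` but not on
`Δ^{n+1}`: the maps `(z, w) ↦ [z₁ - a : w : 1 / k]` with `1 - r < a < 1`.
-/

set_option autoImplicit false

open Set Filter Topology Metric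
open scoped Manifold ContDiff ComplexConjugate

namespace Pool.Agent.Results.MP_7ec995_an.NotEquicontinuous

/-! ### Compact Kähler manifolds -/

section Definitions

variable (E : Type) [NormedAddCommGroup E] [NormedSpace ℂ E]
variable {X : Type} [TopologicalSpace X] [ChartedSpace E X]

/-- `f` is a holomorphic map from the disc `|ζ| < ρ` into the subset `S` of the complex manifold
`X` (modelled on the complex vector space `E`). -/
def IsHolDisc (S : Set X) (ρ : ℝ) (f : ℂ → X) : Prop :=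
  ContMDiffOn 𝓘(ℂ, ℂ) 𝓘(ℂ, E) ω f (ball 0 ρ) ∧ MapsTo f (ball 0 ρ) S

/-- The Laplacian at `ζ = 0` of a real function of the complex variable `ζ = x + i y`. -/
noncomputable def laplaceAtZero (u : ℂ → ℝ) : ℝ :=
  iteratedDeriv 2 (fun x : ℝ => u x) 0 + iteratedDeriv 2 (fun y : ℝ => u (y * Complex.I)) 0

variable (X) in
/-- A Kähler form on the complex manifold `X`, that is, the `(1,1)`-form of a Kähler metric, given
by its local potentials: `X` is covered by open sets `V j` with smooth real functions `pot j` on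
`V j`; the differences `pot j - pot k` are pluriharmonic on `V j ∩ V k`, so that the forms
`dd^c (pot j)` on `V j` define a closed real `(1,1)`-form on `X`; and this form is positive.
Both `dd^c (pot j - pot k) = 0` and `dd^c (pot j) > 0` are tested on holomorphic discs, by the
Laplacian at the centre of the disc. -/
structure KahlerForm where
  J : Type
  V : J → Set X
  pot : J → X → ℝ
  isOpen_V : ∀ j, IsOpen (V j)
  cover : ∀ x, ∃ j, x ∈ V j
  smooth : ∀ j, ContMDiffOn 𝓘(ℝ, E) 𝓘(ℝ, ℝ) ∞ (pot j) (V j)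
  pluriharmonic : ∀ (j k : J) (ρ : ℝ) (f : ℂ → X), 0 < ρ → IsHolDisc E (V j ∩ V k) ρ f →
    laplaceAtZero (fun ζ => pot j (f ζ) - pot k (f ζ)) = 0
  positive : ∀ (j : J) (ρ : ℝ) (f : ℂ → X), 0 < ρ → IsHolDisc E (V j) ρ f →
    mfderiv 𝓘(ℂ, ℂ) 𝓘(ℂ, E) f 0 ≠ 0 → 0 < laplaceAtZero (fun ζ => pot j (f ζ))

/-- `d` is a distance on `X` which induces the topology of `X`, for instance the distance induced
by a Hermitian metric. -/
structure IsDist (d : X → X → ℝ) : Prop where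
  self : ∀ x, d x x = 0
  pos : ∀ x y, x ≠ y → 0 < d x y
  symm : ∀ x y, d x y = d y x
  triangle : ∀ x y z, d x z ≤ d x y + d y z
  nhds : ∀ (x : X) (U : Set X), U ∈ 𝓝 x ↔ ∃ ε : ℝ, 0 < ε ∧ ∀ y, d x y < ε → y ∈ U

/-! ### The Hartogs figure and equicontinuity -/

/-- The polydisc `Δ^n(ρ)` in `ℂ^n`. -/
def polydisc (n : ℕ) (ρ : ℝ) : Set (Fin n → ℂ) := {z | ∀ i, ‖z i‖ < ρ}

/-- The unit polydisc `Δ^{n+1} = Δ^n × Δ^1` in `ℂ^{n+1} = ℂ^n × ℂ`. -/
def bigPolydisc (n : ℕ) : Set ((Fin n → ℂ) × ℂ) := {p | p.1 ∈ polydisc n 1 ∧ ‖p.2‖ < 1}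

/-- The Hartogs figure `H_n^1(r) = (Δ^n(1-r) × Δ^1) ∪ (Δ^n × A^1(r,1))` in `ℂ^{n+1} = ℂ^n × ℂ`. -/
def hartogs (n : ℕ) (r : ℝ) : Set ((Fin n → ℂ) × ℂ) :=
  {p | p.1 ∈ polydisc n (1 - r) ∧ ‖p.2‖ < 1} ∪ {p | p.1 ∈ polydisc n 1 ∧ r < ‖p.2‖ ∧ ‖p.2‖ < 1}

/-- The family `𝓕` of maps on `ℂ^{n+1}` is equicontinuous on the set `U` for the distance `d`. -/
def Equicont {n : ℕ} (d : X → X → ℝ) (𝓕 : Set ((Fin n → ℂ) × ℂ → X))
    (U : Set ((Fin n → ℂ) × ℂ)) : Prop :=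
  ∀ p ∈ U, ∀ ε : ℝ, 0 < ε → ∃ δ : ℝ, 0 < δ ∧
    ∀ f ∈ 𝓕, ∀ z ∈ U, ‖z - p‖ < δ → d (f z) (f p) < ε

end Definitions

open Pool.Agent.K4H53

/-! ### The Kähler form of the projective plane -/

theorem holDisc_chart {j : Fin 3} {ρ : ℝ} {f : ℂ → P2} {S : Set P2}
    (hf : IsHolDisc (Fin 2 → ℂ) S ρ f) (hS : S ⊆ (chart j).source) :
    DifferentiableOn ℂ (fun ζ => chart j (f ζ)) (ball 0 ρ) := by
  have h1 : ContMDiffOn 𝓘(ℂ, Fin 2 → ℂ) 𝓘(ℂ, Fin 2 → ℂ) ω (chart j) (chart j).source :=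
    contMDiffOn_of_mem_maximalAtlas
      (IsManifold.subset_maximalAtlas (mem_range_self j : chart j ∈ atlas (Fin 2 → ℂ) P2))
  have h2 : ContMDiffOn 𝓘(ℂ, ℂ) 𝓘(ℂ, Fin 2 → ℂ) ω (fun ζ => chart j (f ζ)) (ball 0 ρ) :=
    h1.comp hf.1 (fun z hz => hS (hf.2 hz))
  rw [contMDiffOn_iff_contDiffOn] at h2
  exact h2.differentiableOn (by simp)

theorem chart_deriv {j : Fin 3} {ρ : ℝ} (hρ : 0 < ρ) {f : ℂ → P2}
    (hf : IsHolDisc (Fin 2 → ℂ) (chart j).source ρ f)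
    (h0 : mfderiv 𝓘(ℂ, ℂ) 𝓘(ℂ, Fin 2 → ℂ) f 0 ≠ 0) :
    ∃ i, deriv (fun ζ => chart j (f ζ) i) 0 ≠ 0 := by
  by_contra hcon
  push Not at hcon
  apply h0
  have hd := holDisc_chart hf Subset.rfl
  have hb : ball (0:ℂ) ρ ∈ 𝓝 (0:ℂ) := ball_mem_nhds 0 hρ
  have hda : DifferentiableAt ℂ (fun ζ => chart j (f ζ)) 0 := hd.differentiableAt hb
  have hF : HasFDerivAt (fun ζ => chart j (f ζ)) (0 : ℂ →L[ℂ] (Fin 2 → ℂ)) 0 := by
    rw [hasFDerivAt_pi']
    intro i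
    have h1 : DifferentiableAt ℂ (fun ζ => chart j (f ζ) i) 0 := differentiableAt_pi.1 hda i
    have h2 := h1.hasDerivAt
    rw [hcon i] at h2
    have h3 : HasFDerivAt (fun ζ => chart j (f ζ) i) (0 : ℂ →L[ℂ] ℂ) 0 := by
      have h4 := h2.hasFDerivAt
      have e : (ContinuousLinearMap.toSpanSingleton ℂ (0:ℂ)) = 0 := by
        ext; simp
      rw [e] at h4
      exact h4
    rw [ContinuousLinearMap.comp_zero]
    exact h3
  have hev : f =ᶠ[𝓝 0] fun ζ => (chart j).symm (chart j (f ζ)) := by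
    filter_upwards [hb] with ζ hζ
    exact ((chart j).left_inv (hf.2 hζ)).symm
  rw [hev.mfderiv_eq]
  have h1 : ContMDiffOn 𝓘(ℂ, Fin 2 → ℂ) 𝓘(ℂ, Fin 2 → ℂ) ω (chart j).symm (chart j).target :=
    contMDiffOn_symm_of_mem_maximalAtlas
      (IsManifold.subset_maximalAtlas (mem_range_self j : chart j ∈ atlas (Fin 2 → ℂ) P2))
  have h2 : MDifferentiableAt 𝓘(ℂ, Fin 2 → ℂ) 𝓘(ℂ, Fin 2 → ℂ) (chart j).symm (chart j (f 0)) := by
    have := h1.contMDiffAt (x := chart j (f 0)) (Filter.univ_mem)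
    exact this.mdifferentiableAt (by simp)
  have h3 : MDifferentiableAt 𝓘(ℂ, ℂ) 𝓘(ℂ, Fin 2 → ℂ) (fun ζ => chart j (f ζ)) 0 :=
    hda.mdifferentiableAt
  have h4 := mfderiv_comp (I := 𝓘(ℂ, ℂ)) (I' := 𝓘(ℂ, Fin 2 → ℂ)) (I'' := 𝓘(ℂ, Fin 2 → ℂ))
    (g := (chart j).symm) (f := fun ζ => chart j (f ζ)) (0:ℂ) h2 h3
  have h5 : mfderiv 𝓘(ℂ, ℂ) 𝓘(ℂ, Fin 2 → ℂ) (fun ζ => chart j (f ζ)) 0 = 0 := by
    rw [mfderiv_eq_fderiv]
    exact hF.fderiv
  refine Eq.trans h4 ?_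
  rw [h5]
  exact ContinuousLinearMap.comp_zero _

/-- the potential `log (|v|² / |v_j|²)` -/
noncomputable def fsPot (j : Fin 3) (A : P2) : ℝ := Real.log (1 + ∑ i, ‖chart j A i‖ ^ 2)

theorem fsPot_pt {v : Fin 3 → ℂ} (hv : v ≠ 0) {j : Fin 3} (hj : v j ≠ 0) :
    fsPot j (pt v hv) = Real.log (nsq v) - Real.log (‖v j‖ ^ 2) := by
  have h1 : ∀ i, chart j (pt v hv) i = v (j.succAbove i) / v j := fun i => ratio_eq hv _ _ hj
  have hp : 0 < ‖v j‖ := norm_pos_iff.2 hj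
  have h2 : 1 + ∑ i, ‖chart j (pt v hv) i‖ ^ 2 = nsq v / ‖v j‖ ^ 2 := by
    unfold nsq
    rw [Fin.sum_univ_succAbove _ j, add_div, div_self (by positivity), Finset.sum_div]
    congr 1
    refine Finset.sum_congr rfl fun i _ => ?_
    rw [h1, norm_div, div_pow]
  rw [fsPot, h2, Real.log_div (nsq_pos hv).ne' (by positivity)]

theorem fsPot_sub {j k : Fin 3} {A : P2} (hj : A ∈ (chart j).source) (hk : A ∈ (chart k).source) :
    ins j (chart j A) k ≠ 0 ∧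
      fsPot j A - fsPot k A = Real.log (‖ins j (chart j A) k‖ ^ 2) := by
  obtain ⟨A, v, hv, rfl⟩ := A
  have hvj : v j ≠ 0 := (diag_ne hv j).1 hj
  have hvk : v k ≠ 0 := (diag_ne hv k).1 hk
  have e : chart j (pt v hv) = fun i => v (j.succAbove i) / v j := by
    funext i
    exact ratio_eq hv _ _ hvj
  have e2 : ins j (chart j (pt v hv)) k = (v j)⁻¹ * v k := by
    rw [e, ins_ratio hvj]
    rfl
  have hpj : 0 < ‖v j‖ := norm_pos_iff.2 hvj
  have hpk : 0 < ‖v k‖ := norm_pos_iff.2 hvk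
  refine ⟨?_, ?_⟩
  · show ins j (chart j (pt v hv)) k ≠ 0
    rw [e2]
    exact mul_ne_zero (inv_ne_zero hvj) hvk
  · show fsPot j (pt v hv) - fsPot k (pt v hv) = Real.log (‖ins j (chart j (pt v hv)) k‖ ^ 2)
    rw [fsPot_pt hv hvj, fsPot_pt hv hvk, e2, norm_mul, norm_inv, mul_pow, inv_pow,
      Real.log_mul (by positivity) (by positivity), Real.log_inv]
    ring

theorem fs_smooth (j : Fin 3) :
    ContMDiffOn 𝓘(ℝ, Fin 2 → ℂ) 𝓘(ℝ, ℝ) ∞ (fsPot j) (chart j).source := by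
  have h1 : ContMDiffOn 𝓘(ℝ, Fin 2 → ℂ) 𝓘(ℝ, Fin 2 → ℂ) ∞ (chart j) (chart j).source :=
    contMDiffOn_of_mem_maximalAtlas
      (IsManifold.subset_maximalAtlas (mem_range_self j : chart j ∈ atlas (Fin 2 → ℂ) P2))
  have h2 : ContDiff ℝ ∞ (fun z : Fin 2 → ℂ => Real.log (1 + ∑ i, ‖z i‖ ^ 2)) := by
    apply ContDiff.log
    · apply contDiff_const.add
      apply ContDiff.sum
      intro i _
      exact (contDiff_apply ℝ ℂ i).norm_sq ℝ
    · intro z
      positivity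
  exact h2.contMDiff.comp_contMDiffOn h1

theorem fs_plur (j k : Fin 3) (ρ : ℝ) (f : ℂ → P2) (hρ : 0 < ρ)
    (hf : IsHolDisc (Fin 2 → ℂ) ((chart j).source ∩ (chart k).source) ρ f) :
    laplaceAtZero (fun ζ => fsPot j (f ζ) - fsPot k (f ζ)) = 0 := by
  have hdj := holDisc_chart (j := j) hf inter_subset_left
  have hH : DifferentiableOn ℂ (fun ζ => ins j (chart j (f ζ)) k) (ball 0 ρ) := by
    have h1 : Differentiable ℂ (fun z => ins j z k) :=
      ((contDiff_apply ℂ ℂ k).comp (contDiff_ins (𝕜 := ℂ) (n := 1) j)).differentiable (by simp)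
    exact h1.comp_differentiableOn hdj
  have h1 : ∀ z ∈ ball (0:ℂ) ρ, ins j (chart j (f z)) k ≠ 0 := fun z hz =>
    (fsPot_sub (hf.2 hz).1 (hf.2 hz).2).1
  have h2 : ∀ z ∈ ball (0:ℂ) ρ, fsPot j (f z) - fsPot k (f z) =
      Real.log (‖ins j (chart j (f z)) k‖ ^ 2) := fun z hz =>
    (fsPot_sub (hf.2 hz).1 (hf.2 hz).2).2
  exact lap_zero hρ hH h1 (u := fun ζ => fsPot j (f ζ) - fsPot k (f ζ)) h2

theorem fs_pos (j : Fin 3) (ρ : ℝ) (f : ℂ → P2) (hρ : 0 < ρ)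
    (hf : IsHolDisc (Fin 2 → ℂ) (chart j).source ρ f)
    (h0 : mfderiv 𝓘(ℂ, ℂ) 𝓘(ℂ, Fin 2 → ℂ) f 0 ≠ 0) :
    0 < laplaceAtZero (fun ζ => fsPot j (f ζ)) := by
  have hd := holDisc_chart hf Subset.rfl
  obtain ⟨i, hi⟩ := chart_deriv hρ hf h0
  exact lap_pos (F := fun i ζ => chart j (f ζ) i) hρ
    (fun i => (differentiableOn_pi.1 hd i)) ⟨i, hi⟩

/-- the Fubini–Study form -/
noncomputable def fubiniStudy : KahlerForm (Fin 2 → ℂ) P2 where
  J := Fin 3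
  V j := (chart j).source
  pot := fsPot
  isOpen_V j := (chart j).open_source
  cover A := by
    obtain ⟨j, hj⟩ := exists_diag A
    exact ⟨j, hj⟩
  smooth := fs_smooth
  pluriharmonic := fs_plur
  positive := fs_pos

theorem isDist_P2 : IsDist (fun x y : P2 => dist x y) where
  self := dist_self
  pos x y h := dist_pos.2 h
  symm := dist_comm
  triangle := dist_triangle
  nhds x U := by
    rw [Metric.mem_nhds_iff]
    constructor
    · rintro ⟨ε, hε, h⟩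
      exact ⟨ε, hε, fun y hy => h (by rw [mem_ball, dist_comm]; exact hy)⟩
    · rintro ⟨ε, hε, h⟩
      exact ⟨ε, hε, fun y hy => h y (by rw [mem_ball, dist_comm] at hy; exact hy)⟩

/-! ### The family -/

/-- homogeneous coordinates -/
def vec (x y t : ℂ) : Fin 3 → ℂ := ![x, y, t]

theorem vec_ne {x y t : ℂ} (h : x ≠ 0 ∨ y ≠ 0 ∨ t ≠ 0) : vec x y t ≠ 0 := by
  intro h0
  have h1 := congrFun h0 0
  have h2 := congrFun h0 1
  have h3 := congrFun h0 2
  simp only [vec, Matrix.cons_val_zero, Matrix.cons_val_one, Matrix.cons_val, Pi.zero_apply] at h1 h2 h3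
  tauto

/-- the maps `(z, w) ↦ [z₁ - a : w : 1 / (k + 1)]` -/
noncomputable def fam {n : ℕ} (i0 : Fin n) (a : ℝ) (k : ℕ) (p : (Fin n → ℂ) × ℂ) : P2 :=
  pt (vec (p.1 i0 - a) p.2 ((1 / ((k : ℝ) + 1) : ℝ) : ℂ)) (vec_ne (Or.inr (Or.inr (by
    have : (0:ℝ) < 1 / ((k : ℝ) + 1) := by positivity
    exact_mod_cast this.ne'))))

theorem fam_eq {n : ℕ} (i0 : Fin n) (a : ℝ) (k : ℕ) (p : (Fin n → ℂ) × ℂ) :
    fam i0 a k p = (chart 2).symm ![((k:ℂ) + 1) * (p.1 i0 - a), ((k:ℂ) + 1) * p.2] := by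
  have hk : ((k:ℂ) + 1) ≠ 0 := by exact_mod_cast Nat.succ_ne_zero k
  show fam i0 a k p = pt (ins 2 ![((k:ℂ) + 1) * (p.1 i0 - a), ((k:ℂ) + 1) * p.2]) (ins_ne _ _)
  have e : ins 2 ![((k:ℂ) + 1) * (p.1 i0 - a), ((k:ℂ) + 1) * p.2] =
      ((k:ℂ) + 1) • vec (p.1 i0 - a) p.2 ((1 / ((k : ℝ) + 1) : ℝ) : ℂ) := by
    funext i
    fin_cases i
    · exact ins_succAbove 2 ![((k:ℂ) + 1) * (p.1 i0 - a), ((k:ℂ) + 1) * p.2] 0
    · exact ins_succAbove 2 ![((k:ℂ) + 1) * (p.1 i0 - a), ((k:ℂ) + 1) * p.2] 1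
    · have := ins_same 2 ![((k:ℂ) + 1) * (p.1 i0 - a), ((k:ℂ) + 1) * p.2]
      simp only [vec]
      simp only [Fin.reduceFinMk, Pi.smul_apply, Matrix.cons_val, smul_eq_mul]
      rw [this]
      push_cast
      field_simp
  rw [pt_congr (ins_ne _ _) e, fam, pt_smul hk]

theorem fam_hol {n : ℕ} (i0 : Fin n) (a : ℝ) (k : ℕ) (U : Set ((Fin n → ℂ) × ℂ)) :
    ContMDiffOn 𝓘(ℂ, (Fin n → ℂ) × ℂ) 𝓘(ℂ, Fin 2 → ℂ) ω (fam i0 a k) U := by
  have h1 : ContMDiffOn 𝓘(ℂ, Fin 2 → ℂ) 𝓘(ℂ, Fin 2 → ℂ) ω (chart 2).symm (chart 2).target :=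
    contMDiffOn_symm_of_mem_maximalAtlas
      (IsManifold.subset_maximalAtlas (mem_range_self 2 : chart 2 ∈ atlas (Fin 2 → ℂ) P2))
  have h2 : ContDiff ℂ ω (fun p : (Fin n → ℂ) × ℂ =>
      (![((k:ℂ) + 1) * (p.1 i0 - a), ((k:ℂ) + 1) * p.2] : Fin 2 → ℂ)) := by
    rw [contDiff_pi]
    intro i
    fin_cases i
    · simp only [Fin.zero_eta, Matrix.cons_val_zero]
      exact contDiff_const.mul (((contDiff_apply ℂ ℂ i0).comp contDiff_fst).sub contDiff_const)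
    · simp only [Fin.mk_one, Matrix.cons_val_one]
      exact contDiff_const.mul contDiff_snd
  have h3 : fam i0 a k = fun p => (chart 2).symm
      (![((k:ℂ) + 1) * (p.1 i0 - a), ((k:ℂ) + 1) * p.2] : Fin 2 → ℂ) := funext (fam_eq i0 a k)
  rw [h3]
  exact h1.comp h2.contMDiff.contMDiffOn (fun p _ => mem_univ _)

/-- continuity of the projection in all variables -/
theorem fam_cont {d : P2 → P2 → ℝ} (hd : IsDist d) :
    Continuous fun q : P2 × P2 => d q.1 q.2 := by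
  rw [continuous_iff_continuousAt]
  rintro ⟨x, y⟩
  rw [Metric.continuousAt_iff']
  intro ε hε
  have hx : {z | d x z < ε / 2} ∈ 𝓝 x := (hd.nhds x _).2 ⟨ε / 2, by positivity, fun z hz => hz⟩
  have hy : {z | d y z < ε / 2} ∈ 𝓝 y := (hd.nhds y _).2 ⟨ε / 2, by positivity, fun z hz => hz⟩
  have h := prod_mem_nhds hx hy
  filter_upwards [h] with q hq
  obtain ⟨h1, h2⟩ := hq
  simp only [mem_ofPred_eq] at h1 h2
  rw [Real.dist_eq, abs_lt]
  have t1 := hd.triangle q.1 x q.2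
  have t2 := hd.triangle x y q.2
  have t3 := hd.triangle x q.1 y
  have t4 := hd.triangle q.1 q.2 y
  rw [hd.symm q.1 x] at t1
  rw [hd.symm q.2 y] at t4
  constructor <;> linarith


/-- limits of points of the projective plane -/
theorem tendsto_pt {x y t : ℕ → ℂ} {x0 y0 t0 : ℂ} (hx : Tendsto x atTop (𝓝 x0))
    (hy : Tendsto y atTop (𝓝 y0)) (ht : Tendsto t atTop (𝓝 t0))
    (hne : ∀ m, vec (x m) (y m) (t m) ≠ 0) (h0 : vec x0 y0 t0 ≠ 0) :
    Tendsto (fun m => pt (vec (x m) (y m) (t m)) (hne m)) atTop (𝓝 (pt (vec x0 y0 t0) h0)) := by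
  refine tendsto_subtype_rng.2 ?_
  have h1 : Tendsto (fun m => vec (x m) (y m) (t m)) atTop (𝓝 (vec x0 y0 t0)) := by
    rw [tendsto_pi_nhds]
    intro i
    fin_cases i
    · exact hx
    · exact hy
    · exact ht
  exact (continuousAt_prj h0).tendsto.comp h1

/-- the family is locally uniformly continuous outside of the line `z₁ = a`, `w = 0` -/
theorem fam_equi {n : ℕ} (i0 : Fin n) (a : ℝ) {d : P2 → P2 → ℝ} (hd : IsDist d)
    {p : (Fin n → ℂ) × ℂ} (hp : p.1 i0 - a ≠ 0 ∨ p.2 ≠ 0) {ε : ℝ} (hε : 0 < ε) :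
    ∃ δ : ℝ, 0 < δ ∧ ∀ k : ℕ, ∀ z : (Fin n → ℂ) × ℂ, ‖z - p‖ < δ →
      d (fam i0 a k z) (fam i0 a k p) < ε := by
  by_contra hcon
  push Not at hcon
  have h : ∀ m : ℕ, ∃ (k : ℕ) (z : (Fin n → ℂ) × ℂ), ‖z - p‖ < 1 / ((m : ℝ) + 1) ∧
      ε ≤ d (fam i0 a k z) (fam i0 a k p) := fun m => hcon _ (by positivity)
  choose k z hz hkz using h
  have ht : ∀ m : ℕ, (1 / ((k m : ℝ) + 1) : ℝ) ∈ Icc (0:ℝ) 1 := by
    intro m
    refine ⟨by positivity, ?_⟩
    rw [div_le_one (by positivity)]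
    have : (0:ℝ) ≤ k m := Nat.cast_nonneg _
    linarith
  obtain ⟨t0, -, φ, hφ, hlim⟩ := isCompact_Icc.tendsto_subseq ht
  have h0 : vec (p.1 i0 - a) p.2 (t0 : ℂ) ≠ 0 := vec_ne (hp.elim Or.inl fun h => Or.inr (Or.inl h))
  have hzp : Tendsto (fun m => z (φ m)) atTop (𝓝 p) := by
    have h1 : Tendsto z atTop (𝓝 p) := by
      rw [tendsto_iff_norm_sub_tendsto_zero]
      exact squeeze_zero (fun _ => norm_nonneg _) (fun m => (hz m).le)
        tendsto_one_div_add_atTop_nhds_zero_nat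
    exact h1.comp hφ.tendsto_atTop
  have htC : Tendsto (fun m => (((1 / ((k (φ m) : ℝ) + 1) : ℝ) : ℝ) : ℂ)) atTop (𝓝 (t0 : ℂ)) :=
    (Complex.continuous_ofReal.tendsto t0).comp hlim
  have hx : Tendsto (fun m => (z (φ m)).1 i0 - (a : ℂ)) atTop (𝓝 (p.1 i0 - a)) := by
    have h1 : Continuous fun q : (Fin n → ℂ) × ℂ => q.1 i0 - (a : ℂ) := by fun_prop
    exact (h1.tendsto p).comp hzp
  have hy : Tendsto (fun m => (z (φ m)).2) atTop (𝓝 p.2) := (continuous_snd.tendsto p).comp hzp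
  have l1 := tendsto_pt hx hy htC (fun m => vec_ne (Or.inr (Or.inr (by
    have : (0:ℝ) < 1 / ((k (φ m) : ℝ) + 1) := by positivity
    exact_mod_cast this.ne')))) h0
  have l2 := tendsto_pt (tendsto_const_nhds (x := p.1 i0 - (a : ℂ)))
    (tendsto_const_nhds (x := p.2)) htC (fun m => vec_ne (Or.inr (Or.inr (by
    have : (0:ℝ) < 1 / ((k (φ m) : ℝ) + 1) := by positivity
    exact_mod_cast this.ne')))) h0
  have l3 := ((fam_cont hd).tendsto (pt _ h0, pt _ h0)).comp (l1.prodMk_nhds l2)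
  simp only [hd.self] at l3
  have l4 := ge_of_tendsto l3 (Eventually.of_forall fun m => hkz (φ m))
  linarith

theorem equi_hartogs {n : ℕ} (i0 : Fin n) {r : ℝ} (h0 : 0 < r) (h1 : r < 1) {d : P2 → P2 → ℝ}
    (hd : IsDist d) : Equicont d (range (fam i0 (1 - r / 2))) (hartogs n r) := by
  intro p hp ε hε
  have hne : p.1 i0 - ((1 - r / 2 : ℝ) : ℂ) ≠ 0 ∨ p.2 ≠ 0 := by
    rcases hp with ⟨hp, -⟩ | ⟨-, hp, -⟩
    · left
      intro h
      have h2 : p.1 i0 = ((1 - r / 2 : ℝ) : ℂ) := sub_eq_zero.1 h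
      have h3 := hp i0
      rw [h2, Complex.norm_real, Real.norm_eq_abs, abs_of_pos (by linarith)] at h3
      linarith
    · right
      intro h
      rw [h, norm_zero] at hp
      linarith
  obtain ⟨δ, hδ, H⟩ := fam_equi i0 _ hd hne hε
  refine ⟨δ, hδ, ?_⟩
  rintro _ ⟨k, rfl⟩ z _ hz
  exact H k z hz

theorem not_equi {n : ℕ} (i0 : Fin n) {r : ℝ} (h0 : 0 < r) (h1 : r < 1) {d : P2 → P2 → ℝ}
    (hd : IsDist d) : ¬ Equicont d (range (fam i0 (1 - r / 2))) (bigPolydisc n) := by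
  intro H
  set a : ℝ := 1 - r / 2 with ha
  -- two points
  have hv1 : vec 0 0 1 ≠ 0 := vec_ne (Or.inr (Or.inr one_ne_zero))
  have hv2 : vec 1 0 0 ≠ 0 := vec_ne (Or.inl one_ne_zero)
  set x1 : P2 := pt (vec 0 0 1) hv1 with hx1
  set x2 : P2 := pt (vec 1 0 0) hv2 with hx2
  have hne : x2 ≠ x1 := by
    intro h
    have h2 : x2.1 0 0 ≠ 0 := (diag_ne hv2 0).2 one_ne_zero
    rw [h] at h2
    exact (diag_ne hv1 0).1 h2 rfl
  have hpos : 0 < d x2 x1 := hd.pos _ _ hne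
  let q : ℝ → (Fin n → ℂ) × ℂ := fun s => (Pi.single i0 (s : ℂ), 0)
  have hq : ∀ s : ℝ, 0 ≤ s → s < 1 → q s ∈ bigPolydisc n := by
    intro s hs hs1
    refine ⟨fun i => ?_, by simp [q]⟩
    by_cases hi : i = i0
    · subst hi
      simp only [q, Pi.single_eq_same, Complex.norm_real, Real.norm_eq_abs, abs_of_nonneg hs]
      exact hs1
    · simp [q, Pi.single_eq_of_ne hi]
  obtain ⟨δ, hδ, hH⟩ := H (q a) (hq a (by linarith) (by linarith)) (d x2 x1 / 2) (by positivity)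
  set η : ℝ := min (δ / 2) (r / 4) with hη
  have hη0 : 0 < η := lt_min (by positivity) (by positivity)
  have hη1 : η ≤ r / 4 := min_le_right _ _
  have hη2 : η ≤ δ / 2 := min_le_left _ _
  have hz : q (a + η) ∈ bigPolydisc n := hq _ (by linarith) (by linarith)
  have hdist : ‖q (a + η) - q a‖ < δ := by
    have e : q (a + η) - q a = (Pi.single i0 (η : ℂ), 0) := by
      refine Prod.ext ?_ (by simp [q])
      show (Pi.single i0 ((a + η : ℝ) : ℂ) : Fin n → ℂ) - Pi.single i0 (a : ℂ) = Pi.single i0 (η : ℂ)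
      rw [← Pi.single_sub]
      congr 1
      push_cast
      ring
    rw [e, Prod.norm_def, norm_zero, Pi.norm_single, Complex.norm_real, Real.norm_eq_abs,
      abs_of_pos hη0, max_eq_left hη0.le]
    linarith
  have hk0 : ∀ k : ℕ, (((1 / ((k : ℝ) + 1) : ℝ) : ℝ) : ℂ) ≠ 0 := by
    intro k
    have : (0:ℝ) < 1 / ((k : ℝ) + 1) := by positivity
    exact_mod_cast this.ne'
  have hp : ∀ k : ℕ, fam i0 a k (q a) = x1 := by
    intro k
    have e : vec ((q a).1 i0 - a) (q a).2 (((1 / ((k : ℝ) + 1) : ℝ) : ℝ) : ℂ) =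
        (((1 / ((k : ℝ) + 1) : ℝ) : ℝ) : ℂ) • vec 0 0 1 := by
      funext i
      fin_cases i <;> simp [vec, q]
    rw [fam, pt_congr _ e, pt_smul (hk0 k)]
  have hlim : Tendsto (fun k : ℕ => fam i0 a k (q (a + η))) atTop (𝓝 x2) := by
    have hηC : (η : ℂ) ≠ 0 := by exact_mod_cast hη0.ne'
    have hv3 : vec (η : ℂ) 0 0 ≠ 0 := vec_ne (Or.inl hηC)
    have e2 : x2 = pt (vec (η : ℂ) 0 0) hv3 := by
      have e : vec (η : ℂ) 0 0 = (η : ℂ) • vec 1 0 0 := by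
        funext i
        fin_cases i <;> simp [vec]
      rw [pt_congr _ e, pt_smul hηC]
    rw [e2]
    have ht : Tendsto (fun k : ℕ => (((1 / ((k : ℝ) + 1) : ℝ) : ℝ) : ℂ)) atTop (𝓝 (0:ℂ)) := by
      have := (Complex.continuous_ofReal.tendsto 0).comp tendsto_one_div_add_atTop_nhds_zero_nat
      rw [Complex.ofReal_zero] at this
      exact this
    have e3 : (q (a + η)).1 i0 - (a : ℂ) = (η : ℂ) := by
      simp [q]
    have hx : Tendsto (fun _ : ℕ => (q (a + η)).1 i0 - (a : ℂ)) atTop (𝓝 (η : ℂ)) := by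
      rw [e3]; exact tendsto_const_nhds
    exact tendsto_pt hx (tendsto_const_nhds (x := (0:ℂ))) ht
      (fun k => vec_ne (Or.inr (Or.inr (hk0 k)))) hv3
  have l3 := ((fam_cont hd).tendsto (x2, x1)).comp (hlim.prodMk_nhds (tendsto_const_nhds (x := x1)))
  have l4 : d x2 x1 ≤ d x2 x1 / 2 := by
    refine le_of_tendsto l3 (Eventually.of_forall fun k => ?_)
    have := hH _ (mem_range_self k) _ hz hdist
    rw [hp k] at this
    exact this.le
  linarith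

/-- **Negative answer to Q1 and Q2.** There is a compact connected complex manifold `X` of dimension
`2` with a Kähler form (the projective plane) such that for all `n ≥ 1` and all `0 < r < 1` there is
a family of holomorphic maps `Δ^{n+1} → X` which is equicontinuous on the Hartogs figure
`H_n^1(r)`, but not on `Δ^{n+1}`, for every distance inducing the topology of `X`. -/
theorem result :
    ∃ (E : Type) (_ : NormedAddCommGroup E) (_ : NormedSpace ℂ E) (_ : FiniteDimensional ℂ E)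
      (X : Type) (_ : TopologicalSpace X) (_ : T2Space X) (_ : CompactSpace X)
      (_ : ConnectedSpace X) (_ : ChartedSpace E X) (_ : IsManifold 𝓘(ℂ, E) ω X),
      Module.finrank ℂ E = 2 ∧ Nonempty (KahlerForm E X) ∧ (∃ d : X → X → ℝ, IsDist d) ∧
      ∀ (n : ℕ) (r : ℝ), 1 ≤ n → 0 < r → r < 1 → ∃ 𝓕 : Set ((Fin n → ℂ) × ℂ → X),
        (∀ f ∈ 𝓕, ContMDiffOn 𝓘(ℂ, (Fin n → ℂ) × ℂ) 𝓘(ℂ, E) ω f (bigPolydisc n)) ∧
        ∀ d : X → X → ℝ, IsDist d →
          Equicont d 𝓕 (hartogs n r) ∧ ¬ Equicont d 𝓕 (bigPolydisc n) := by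
  refine ⟨Fin 2 → ℂ, inferInstance, inferInstance, inferInstance, P2, inferInstance,
    inferInstance, inferInstance, inferInstance, inferInstance, inferInstance, by simp,
    ⟨fubiniStudy⟩, ⟨_, isDist_P2⟩, fun n r hn h0 h1 => ?_⟩
  refine ⟨range (fam ⟨0, hn⟩ (1 - r / 2)), ?_, fun d hd => ⟨equi_hartogs _ h0 h1 hd,
    not_equi _ h0 h1 hd⟩⟩
  rintro _ ⟨k, rfl⟩
  exact fam_hol _ _ _ _

end Pool.Agent.Results.MP_7ec995_an.NotEquicontinuous
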